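import Mathlib
import Pool.Agent.H87.Envelope.Proof

/-!
# No constant compares the distance to the (I)-envelope with separation by sequences
-/

set_option autoImplicit false

namespace Pool.Agent.Results.MP_1f58a3_an.NoSeparationConstant

open Pool.Agent.H87.Envelope

/-- Over the real as well as over the complex scalars: for every `c ≥ 1` there are a Banach space
`X`, a set `A` of functionals on `X` and a functional `η` with `d₁(η) > c d₂(η)`. -/
theorem result (𝕜 : Type) [RCLike 𝕜] (c : ℝ) (hc : 1 ≤ c) :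
    ∃ (X : Type) (_ : NormedAddCommGroup X) (_ : NormedSpace 𝕜 X) (_ : CompleteSpace X)
      (A : Set (StrongDual 𝕜 X)) (η : StrongDual 𝕜 X),
      (c : EReal) * dTwo A η < dOne A η := by
  have hε : (0 : ℝ) < 1 / (c + 1) := by positivity
  have hε1 : 1 / (c + 1) ≤ 1 := by
    rw [div_le_one (by positivity)]; linarith
  refine ⟨Sp 𝕜 (1 / (c + 1)), inferInstance, inferInstance, inferInstance,
    AA 𝕜 (1 / (c + 1)), 0, ?_⟩
  have h1 := one_le_dOne (𝕜 := 𝕜) hε hε1
  have h2 := dTwo_le (𝕜 := 𝕜) hε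
  have h3 : (c : EReal) * dTwo (AA 𝕜 (1 / (c + 1)))
      (0 : StrongDual 𝕜 (Sp 𝕜 (1 / (c + 1)))) ≤ (c : EReal) * ((1 / (c + 1) : ℝ) : EReal) := by
    apply mul_le_mul_of_nonneg_left h2
    exact_mod_cast (zero_le_one.trans hc)
  refine (h3.trans_lt ?_).trans_le h1
  rw [← EReal.coe_mul, ← EReal.coe_one, EReal.coe_lt_coe_iff, mul_one_div,
    div_lt_one (by positivity)]
  linarith

end Pool.Agent.Results.MP_1f58a3_an.NoSeparationConstant
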